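import Pool.Agent.H44R2.Spl.Main

/-!
# `Split(Ω, Λ)` is preserved by countable unions
-/

set_option autoImplicit false

namespace Pool.Agent.H44R2.Spl

open Set Cardinal Filter Topology

/-- sequences of open sets suffice. -/
theorem split_of_seq {X : Set ℝ} (h : ∀ E : ℕ → Set X, (∀ n, IsOpen (E n)) →
    (∀ F : Finset X, (⋂ x ∈ F, {n | x ∈ E n}).Infinite) →
    ∃ A : Set ℕ, ∀ x, ({n | x ∈ E n} ∩ A).Infinite ∧ ({n | x ∈ E n} \ A).Infinite) : Split X := by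
  classical
  rintro U ⟨hU, hO⟩
  obtain ⟨U', hU', hcount, hO'⟩ := countable_omega hU.isOpen hO
  have hp' : Set.univ ∉ U' := fun h => hU.proper (hU' h)
  have hinf : U'.Infinite := by
    have := omega_infinite hp' hO' ∅ Set.finite_empty
    exact this.mono (fun u hu => hu.1)
  have : Infinite U' := hinf.to_subtype
  have : Countable U' := hcount.to_subtype
  obtain ⟨e⟩ : Nonempty (ℕ ≃ U') := by
    have := (nonempty_denumerable_iff (α := U')).2 ⟨inferInstance, inferInstance⟩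
    obtain ⟨hd⟩ := this
    exact ⟨(Denumerable.eqv U').symm⟩
  let E : ℕ → Set X := fun n => (e n : Set X)
  have hE : Function.Injective E := Subtype.val_injective.comp e.injective
  have hEU : ∀ n, E n ∈ U := fun n => hU' (e n).2
  let y : X → Set ℕ := fun x => {n | x ∈ E n}
  have hy : ∀ F : Finset X, (⋂ x ∈ F, y x).Infinite := by
    intro F hfin
    have h1 := omega_infinite hp' hO' (F : Set X) F.finite_toSet
    apply h1
    refine (hfin.image E).subset ?_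
    rintro u ⟨hu1, hu2⟩
    refine ⟨e.symm ⟨u, hu1⟩, ?_, ?_⟩
    · simp only [Set.mem_iInter]
      intro x hx
      change x ∈ E _
      simp only [E, Equiv.apply_symm_apply]
      exact hu2 hx
    · simp [E]
  obtain ⟨A, hA⟩ := h E (fun n => hU.isOpen _ (hEU n)) hy
  have large : ∀ S : Set ℕ, (∀ x, (y x ∩ S).Infinite) → IsLarge (E '' S) := by
    intro S hS
    have hxinf : ∀ x : X, {u | u ∈ E '' S ∧ x ∈ u}.Infinite := by
      intro x
      have h1 : E '' (y x ∩ S) ⊆ {u | u ∈ E '' S ∧ x ∈ u} := by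
        rintro _ ⟨n, ⟨hn1, hn2⟩, rfl⟩
        exact ⟨⟨n, hn2, rfl⟩, hn1⟩
      exact ((hS x).image hE.injOn).mono h1
    refine ⟨⟨?_, ?_, ?_⟩, hxinf⟩
    · rintro _ ⟨n, -, rfl⟩
      exact hU.isOpen _ (hEU n)
    · rw [Set.eq_univ_iff_forall]
      intro x
      obtain ⟨u, hu1, hu2⟩ := (hxinf x).nonempty
      exact ⟨u, hu1, hu2⟩
    · rintro ⟨n, -, hn⟩
      exact hU.proper (hn ▸ hEU n)
  refine ⟨E '' A ∪ (U \ U'), E '' Aᶜ, ?_, ?_, ⟨E '' A, subset_union_left, large A (fun x => (hA x).1)⟩,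
    ⟨E '' Aᶜ, subset_rfl, large Aᶜ (fun x => by rw [← Set.sdiff_eq]; exact (hA x).2)⟩⟩
  · apply Set.Subset.antisymm
    · rintro u ((⟨n, -, rfl⟩ | hu) | ⟨n, -, rfl⟩)
      · exact hEU n
      · exact hu.1
      · exact hEU n
    · intro u hu
      by_cases h : u ∈ U'
      · have h2 : E (e.symm ⟨u, h⟩) = u := by simp [E]
        by_cases h3 : e.symm ⟨u, h⟩ ∈ A
        · left; left; exact ⟨_, h3, h2⟩
        · right; exact ⟨_, h3, h2⟩
      · left; right; exact ⟨hu, h⟩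
  · rw [Set.disjoint_left]
    rintro u (⟨n, hn, rfl⟩ | hu) ⟨m, hm, hmn⟩
    · have := hE hmn
      rw [this] at hm
      exact hm hn
    · apply hu.2
      rw [← hmn]
      exact (e m).2

/-- a centred family which is not split generates an ultrafilter. -/
lemma exists_ultra_of_unsplit {Y : Type} (y : Y → Set ℕ)
    (hy : ∀ F : Finset Y, (⋂ x ∈ F, y x).Infinite)
    (hc : ¬ ∃ A : Set ℕ, ∀ x, (y x ∩ A).Infinite ∧ (y x \ A).Infinite) :
    ∃ 𝒰 : Ultrafilter ℕ, (∀ n : ℕ, ({n} : Set ℕ) ∉ 𝒰) ∧ (∀ x, y x ∈ 𝒰) ∧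
      ∀ s ∈ 𝒰, ∃ x, (y x \ s).Finite := by
  classical
  have hc' : ∀ A : Set ℕ, ∃ x, (y x ∩ A).Finite ∨ (y x \ A).Finite := by
    intro A
    by_contra h
    refine hc ⟨A, fun x => ⟨fun h1 => h ⟨x, Or.inl h1⟩, fun h1 => h ⟨x, Or.inr h1⟩⟩⟩
  -- the filter generated
  let G : Filter ℕ :=
    { sets := {s | ∃ F : Finset Y, ((⋂ x ∈ F, y x) \ s).Finite}
      univ_sets := ⟨∅, by simp⟩
      sets_of_superset := by
        rintro s t ⟨F, hF⟩ hst
        exact ⟨F, hF.subset (Set.sdiff_subset_sdiff_right hst)⟩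
      inter_sets := by
        rintro s t ⟨F, hF⟩ ⟨F', hF'⟩
        refine ⟨F ∪ F', (hF.union hF').subset ?_⟩
        rintro n ⟨hn1, hn2⟩
        by_cases hs : n ∈ s
        · right
          exact ⟨mem_iInter₂.2 (fun x hx => mem_iInter₂.1 hn1 x (Finset.mem_union_right _ hx)),
            fun ht => hn2 ⟨hs, ht⟩⟩
        · left
          exact ⟨mem_iInter₂.2 (fun x hx => mem_iInter₂.1 hn1 x (Finset.mem_union_left _ hx)), hs⟩ }
  have hG : ∀ s, s ∈ G ↔ ∃ F : Finset Y, ((⋂ x ∈ F, y x) \ s).Finite := fun s => Iff.rfl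
  have hult : ∀ s, sᶜ ∉ G ↔ s ∈ G := by
    intro s
    constructor
    · intro h
      obtain ⟨x, hx⟩ := hc' s
      rcases hx with hx | hx
      · exfalso
        apply h
        rw [hG]
        refine ⟨{x}, ?_⟩
        simpa [Set.sdiff_eq] using hx
      · rw [hG]
        exact ⟨{x}, by simpa using hx⟩
    · intro h h'
      rw [hG] at h h'
      obtain ⟨F, hF⟩ := h
      obtain ⟨F', hF'⟩ := h'
      apply hy (F ∪ F')
      refine (hF.union hF').subset ?_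
      intro n hn
      by_cases hs : n ∈ s
      · right
        exact ⟨mem_iInter₂.2 (fun x hx => mem_iInter₂.1 hn x (Finset.mem_union_right _ hx)),
          fun h => h hs⟩
      · left
        exact ⟨mem_iInter₂.2 (fun x hx => mem_iInter₂.1 hn x (Finset.mem_union_left _ hx)), hs⟩
  let 𝒰 : Ultrafilter ℕ := Ultrafilter.ofComplNotMemIff G hult
  have h𝒰 : ∀ s, s ∈ 𝒰 ↔ ∃ F : Finset Y, ((⋂ x ∈ F, y x) \ s).Finite := fun s => Iff.rfl
  have hnp : ∀ n : ℕ, ({n} : Set ℕ) ∉ 𝒰 := by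
    intro n hn
    rw [h𝒰] at hn
    obtain ⟨F, hF⟩ := hn
    apply hy F
    refine (hF.union (Set.finite_singleton n)).subset ?_
    intro m hm
    by_cases hmn : m = n
    · right; exact hmn
    · left; exact ⟨hm, hmn⟩
  have hyU : ∀ x, y x ∈ 𝒰 := by
    intro x
    rw [h𝒰]
    exact ⟨{x}, by simp⟩
  refine ⟨𝒰, hnp, hyU, ?_⟩
  intro s hs
  obtain ⟨x, hx⟩ := hc' s
  rcases hx with hx | hx
  · exact absurd (Filter.inter_mem (hyU x) hs) (finite_not_mem hnp hx)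
  · exact ⟨x, hx⟩

/-- an infinite set of natural numbers is the union of two disjoint infinite sets. -/
lemma exists_halves {S : Set ℕ} (hS : S.Infinite) :
    ∃ A B : Set ℕ, A ∪ B = S ∧ Disjoint A B ∧ A.Infinite ∧ B.Infinite := by
  classical
  have : Infinite S := hS.to_subtype
  obtain ⟨e⟩ : Nonempty (ℕ ≃ S) := by
    have := (nonempty_denumerable_iff (α := S)).2 ⟨inferInstance, inferInstance⟩
    obtain ⟨hd⟩ := this
    exact ⟨(Denumerable.eqv S).symm⟩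
  let E : ℕ → ℕ := fun n => (e n : ℕ)
  have hE : Function.Injective E := Subtype.val_injective.comp e.injective
  have hev : {n : ℕ | Even n}.Infinite := by
    refine Set.infinite_of_injective_forall_mem (f := fun n : ℕ => 2 * n) (fun a b h => by
      simpa using h) (fun n => by simp)
  have hod : {n : ℕ | ¬ Even n}.Infinite := by
    refine Set.infinite_of_injective_forall_mem (f := fun n : ℕ => 2 * n + 1) (fun a b h => by
      simpa using h) (fun n => by simp [Nat.not_even_iff_odd])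
  refine ⟨E '' {n | Even n}, E '' {n | ¬ Even n}, ?_, ?_, hev.image hE.injOn, hod.image hE.injOn⟩
  · ext k
    constructor
    · rintro (⟨n, -, rfl⟩ | ⟨n, -, rfl⟩) <;> exact (e n).2
    · intro hk
      have h2 : E (e.symm ⟨k, hk⟩) = k := by simp [E]
      by_cases h : Even (e.symm ⟨k, hk⟩)
      · left; exact ⟨_, h, h2⟩
      · right; exact ⟨_, h, h2⟩
  · rw [Set.disjoint_left]
    rintro _ ⟨n, hn, rfl⟩ ⟨m, hm, hmn⟩
    rw [hE hmn] at hm
    exact hm hn

/-- one step: shrink a set of the ultrafilter. -/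
lemma split_step {X Z : Set ℝ} (hXZ : X ⊆ Z) (hX : Split X) (O : ℕ → Set Z)
    (hO : ∀ n, IsOpen (O n)) (𝒰 : Ultrafilter ℕ) (h : ∀ n : ℕ, ({n} : Set ℕ) ∉ 𝒰)
    (hO𝒰 : ∀ x : Z, {n | x ∈ O n} ∈ 𝒰) (B : Set ℕ) (hB : B ∈ 𝒰) :
    ∃ B' ⊆ B, B' ∈ 𝒰 ∧ ∀ x : X, ({n | (⟨x, hXZ x.2⟩ : Z) ∈ O n} ∩ (B \ B')).Infinite := by
  classical
  let T : ℕ → Set X := fun n => (Set.inclusion hXZ) ⁻¹' (O n)
  have hTO : ∀ n, IsOpen (T n) := fun n => (hO n).preimage (continuous_inclusion hXZ)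
  have hT𝒰 : ∀ x : X, {n | x ∈ T n} ∈ 𝒰 := fun x => hO𝒰 (Set.inclusion hXZ x)
  change ∃ B' ⊆ B, B' ∈ 𝒰 ∧ ∀ x : X, ({n | x ∈ T n} ∩ (B \ B')).Infinite
  let K : Set ℕ := {n | T n = Set.univ}
  rcases Ultrafilter.mem_or_compl_mem 𝒰 K with hK | hK
  · have hBK : B ∩ K ∈ 𝒰 := Filter.inter_mem hB hK
    have hinf : (B ∩ K).Infinite := fun hf => finite_not_mem h hf hBK
    obtain ⟨S₁, S₂, hS, hdisj, h1, h2⟩ := exists_halves hinf
    have key : ∀ S S' : Set ℕ, S ∈ 𝒰 → S' ⊆ B ∩ K → S ⊆ B ∩ K → Disjoint S S' → S'.Infinite →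
        ∃ B' ⊆ B, B' ∈ 𝒰 ∧ ∀ x : X, ({n | x ∈ T n} ∩ (B \ B')).Infinite := by
      intro S S' hSU hS' hSB hd hinf'
      refine ⟨S, fun n hn => (hSB hn).1, hSU, fun x => hinf'.mono ?_⟩
      intro n hn
      refine ⟨?_, (hS' hn).1, fun hn2 => Set.disjoint_left.1 hd hn2 hn⟩
      have : T n = Set.univ := (hS' hn).2
      change x ∈ T n
      rw [this]
      exact Set.mem_univ _
    have hS12 : S₁ ∪ S₂ ∈ 𝒰 := by rw [hS]; exact hBK
    rcases Ultrafilter.union_mem_iff.1 hS12 with h3 | h3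
    · exact key S₁ S₂ h3 (hS ▸ subset_union_right) (hS ▸ subset_union_left) hdisj h2
    · exact key S₂ S₁ h3 (hS ▸ subset_union_left) (hS ▸ subset_union_right) hdisj.symm h1
  · let C : Set ℕ := B ∩ Kᶜ
    have hC : C ∈ 𝒰 := Filter.inter_mem hB hK
    have hfin : ∀ F : Set X, F.Finite → ∃ n ∈ C, F ⊆ T n := by
      intro F hF
      have h2 : (⋂ x ∈ F, {n | x ∈ T n}) ∩ C ∈ (𝒰 : Filter ℕ) := by
        refine Filter.inter_mem ?_ hC
        rw [Filter.biInter_mem hF]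
        intro x _
        exact hT𝒰 x
      obtain ⟨n, hn, hnC⟩ := Ultrafilter.nonempty_of_mem h2
      exact ⟨n, hnC, fun x hx => mem_iInter₂.1 hn x hx⟩
    have hOm : IsOmega (T '' C) := by
      refine ⟨⟨?_, ?_, ?_⟩, ?_⟩
      · rintro _ ⟨n, -, rfl⟩
        exact hTO n
      · rw [Set.eq_univ_iff_forall]
        intro x
        obtain ⟨n, hn, hxn⟩ := hfin {x} (Set.finite_singleton x)
        exact ⟨T n, ⟨n, hn, rfl⟩, hxn rfl⟩
      · rintro ⟨n, hn, hn2⟩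
        exact hn.2 hn2
      · intro F hF
        obtain ⟨n, hn, hxn⟩ := hfin F hF
        exact ⟨T n, ⟨n, hn, rfl⟩, hxn⟩
    obtain ⟨V, W, hVW, hdisj, ⟨V', hV', hVl⟩, ⟨W', hW', hWl⟩⟩ := hX _ hOm
    have key : ∀ P P' : Set (Set X), P' ⊆ P → P ⊆ T '' C → IsLarge P' → ∀ x : X,
        ({n | x ∈ T n} ∩ {n | n ∈ C ∧ T n ∈ P}).Infinite := by
      intro P P' hP' hP hl x hf
      apply hl.2 x
      refine (hf.image T).subset ?_
      rintro u ⟨hu1, hu2⟩
      obtain ⟨n, hn, rfl⟩ := hP (hP' hu1)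
      exact ⟨n, ⟨hu2, hn, hP' hu1⟩, rfl⟩
    have hVi := key V V' hV' (hVW ▸ subset_union_left) hVl
    have hWi := key W W' hW' (hVW ▸ subset_union_right) hWl
    by_cases hA : {n | n ∈ C ∧ T n ∈ V} ∈ 𝒰
    · refine ⟨_, fun n hn => hn.1.1, hA, fun x => (hWi x).mono ?_⟩
      rintro n ⟨hn1, hn2, hn3⟩
      exact ⟨hn1, hn2.1, fun hn4 => Set.disjoint_left.1 hdisj hn4.2 hn3⟩
    · refine ⟨{n | n ∈ C ∧ T n ∈ W}, fun n hn => hn.1.1, ?_, fun x => (hVi x).mono ?_⟩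
      · have h1 : {n | n ∈ C ∧ T n ∈ V} ∪ {n | n ∈ C ∧ T n ∈ W} ∈ 𝒰 := by
          refine Filter.mem_of_superset hC ?_
          intro n hn
          have : T n ∈ V ∪ W := hVW ▸ ⟨n, hn, rfl⟩
          rcases this with h3 | h3
          · left; exact ⟨hn, h3⟩
          · right; exact ⟨hn, h3⟩
        rcases Ultrafilter.union_mem_iff.1 h1 with h2 | h2
        · exact absurd h2 hA
        · exact h2
      · rintro n ⟨hn1, hn2, hn3⟩
        exact ⟨hn1, hn2.1, fun hn4 => Set.disjoint_left.1 hdisj hn3 hn4.2⟩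

/-- `Split(Ω, Λ)` is preserved by countable unions. -/
theorem split_iUnion {X : ℕ → Set ℝ} (hX : ∀ n, Split (X n)) : Split (⋃ n, X n) := by
  classical
  apply split_of_seq
  intro O hO hy
  by_contra hc
  obtain ⟨𝒰, hnp, hy𝒰, hbase⟩ := exists_ultra_of_unsplit (fun x => {n | x ∈ O n}) hy hc
  have hsub : ∀ i, X i ⊆ ⋃ n, X n := fun i => subset_iUnion X i
  -- one step for finitely many sets
  have step : ∀ (m : ℕ) (B : Set ℕ), B ∈ 𝒰 → ∃ B' ⊆ B, B' ∈ 𝒰 ∧ ∀ i ≤ m, ∀ x : X i,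
      ({n | (⟨x, hsub i x.2⟩ : (⋃ n, X n : Set ℝ)) ∈ O n} ∩ (B \ B')).Infinite := by
    intro m B hB
    choose D hD1 hD2 hD3 using fun i => split_step (hsub i) (hX i) O hO 𝒰 hnp hy𝒰 B hB
    refine ⟨⋂ i ∈ Finset.range (m + 1), D i, ?_, ?_, ?_⟩
    · intro n hn
      exact hD1 0 (mem_iInter₂.1 hn 0 (by simp))
    · have : (⋂ i ∈ Finset.range (m + 1), D i) ∈ (𝒰 : Filter ℕ) := by
        rw [Filter.biInter_finset_mem]
        intro i _
        exact hD2 i
      exact this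
    · intro i hi x
      refine (hD3 i x).mono ?_
      rintro n ⟨hn1, hn2, hn3⟩
      refine ⟨hn1, hn2, fun hn4 => hn3 (mem_iInter₂.1 hn4 i ?_)⟩
      simpa using Nat.lt_succ_of_le hi
  choose! N hN1 hN2 hN3 using step
  let B : ℕ → Set ℕ := fun n => Nat.rec Set.univ (fun m b => N m b) n
  have hB0 : B 0 = Set.univ := rfl
  have hBs : ∀ m, B (m + 1) = N m (B m) := fun m => rfl
  have hB𝒰 : ∀ m, B m ∈ 𝒰 := by
    intro m
    induction m with
    | zero => exact Filter.univ_mem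
    | succ m ih => rw [hBs]; exact hN2 m _ ih
  have hanti : Antitone B := by
    refine antitone_nat_of_succ_le (fun m => ?_)
    rw [hBs]
    exact hN1 m _ (hB𝒰 m)
  have hR : ∀ i m, i ≤ m → ∀ x : X i,
      ({n | (⟨x, hsub i x.2⟩ : (⋃ n, X n : Set ℝ)) ∈ O n} ∩ (B m \ B (m + 1))).Infinite := by
    intro i m him x
    rw [hBs]
    exact hN3 m _ (hB𝒰 m) i him x
  -- the pieces
  let Ev : Set ℕ := ⋃ m ∈ {m : ℕ | Even m}, (B m \ B (m + 1))
  have hfinal : ∀ A ∈ 𝒰, ¬ ∀ k, ∃ m ≥ k, Disjoint (B m \ B (m + 1)) A := by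
    intro A hA hd
    obtain ⟨x, hx⟩ := hbase A hA
    obtain ⟨i, hi⟩ := mem_iUnion.1 x.2
    obtain ⟨m, hm, hdm⟩ := hd i
    apply hR i m hm ⟨x, hi⟩
    refine hx.subset ?_
    rintro n ⟨hn1, hn2⟩
    exact ⟨hn1, fun hn3 => Set.disjoint_left.1 hdm hn2 hn3⟩
  have hpd : ∀ m m', m ≠ m' → Disjoint (B m \ B (m + 1)) (B m' \ B (m' + 1)) := by
    have : ∀ m m', m < m' → Disjoint (B m \ B (m + 1)) (B m' \ B (m' + 1)) := by
      intro m m' hmm
      rw [Set.disjoint_left]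
      rintro n ⟨-, hn2⟩ ⟨hn3, -⟩
      exact hn2 (hanti hmm hn3)
    intro m m' hne
    rcases lt_or_gt_of_ne hne with h | h
    · exact this m m' h
    · exact (this m' m h).symm
  rcases Ultrafilter.mem_or_compl_mem 𝒰 Ev with hE | hE
  · apply hfinal Ev hE
    intro k
    refine ⟨2 * k + 1, by omega, ?_⟩
    rw [Set.disjoint_left]
    intro n hn hn2
    obtain ⟨m, hm, hn3⟩ := mem_iUnion₂.1 hn2
    refine Set.disjoint_left.1 (hpd (2 * k + 1) m ?_) hn hn3
    rintro rfl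
    have : Even (2 * k + 1) := hm
    exact absurd this (by simp [Nat.not_even_iff_odd])
  · apply hfinal Evᶜ hE
    intro k
    refine ⟨2 * k, by omega, ?_⟩
    rw [Set.disjoint_left]
    intro n hn hn2
    apply hn2
    refine mem_iUnion₂.2 ⟨2 * k, ?_, hn⟩
    change Even (2 * k)
    simp

/-- `Split(Ω, Λ)` is preserved by countable unions. -/
theorem split_sUnion {F : Set (Set ℝ)} (hF : F.Countable) (h : ∀ X ∈ F, Split X) :
    Split (⋃₀ F) := by
  rcases F.eq_empty_or_nonempty with rfl | hne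
  · intro U hU
    exfalso
    obtain ⟨u, hu, -⟩ := hU.2 ∅ Set.finite_empty
    apply hU.1.proper
    have : u = Set.univ := by
      ext x
      exact absurd x.2 (by simp)
    rw [← this]
    exact hu
  · obtain ⟨X, rfl⟩ := hF.exists_eq_range hne
    rw [Set.sUnion_range]
    exact split_iUnion (fun n => h _ ⟨n, rfl⟩)

/-- `ℵ₁ ≤ add(Split(Ω, Λ))`. -/
theorem aleph_one_le_addSplit : ℵ₁ ≤ addSplit := by
  obtain ⟨F, h1, h2, -⟩ := exists_family_split
  refine le_csInf (s := {κ : Cardinal.{0} | ∃ F : Set (Set ℝ), (∀ X ∈ F, Split X) ∧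
    ¬ Split (⋃₀ F) ∧ #F = κ}) ?_ ?_
  · exact (show Set.Nonempty {κ : Cardinal.{0} | ∃ F : Set (Set ℝ), (∀ X ∈ F, Split X) ∧
      ¬ Split (⋃₀ F) ∧ #F = κ} from ⟨#F, F, h1, h2, rfl⟩)
  · rintro κ ⟨G, hG1, hG2, rfl⟩
    rw [← Cardinal.succ_aleph0, Order.succ_le_iff]
    by_contra hc
    apply hG2
    apply split_sUnion _ hG1
    rw [← Cardinal.le_aleph0_iff_set_countable]
    exact not_lt.1 hc

end Pool.Agent.H44R2.Spl
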