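import Mathlib

/-!
# The splitting property `Split(Ω, Λ)`, its additivity number, and the ultrafilter number

Definitions for the problem MP_312f56_gt.
-/

set_option autoImplicit false

namespace Pool.Agent.H44R2.Spl

open Set Cardinal

/-- `U` is an open cover of the subspace `X` of the real line: a family of open subsets of `X`
whose union is `X`, and `X` itself is not a member. -/
structure IsCover {X : Set ℝ} (U : Set (Set X)) : Prop where
  /-- all members are open in `X` -/
  isOpen : ∀ u ∈ U, IsOpen u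
  /-- the union is `X` -/
  cover : ⋃₀ U = Set.univ
  /-- `X` is not a member -/
  proper : Set.univ ∉ U

/-- `U` is an open large cover: every point belongs to infinitely many members. -/
def IsLarge {X : Set ℝ} (U : Set (Set X)) : Prop :=
  IsCover U ∧ ∀ x : X, {u | u ∈ U ∧ x ∈ u}.Infinite

/-- `U` is an open `ω`-cover: every finite set is contained in a member. -/
def IsOmega {X : Set ℝ} (U : Set (Set X)) : Prop :=
  IsCover U ∧ ∀ F : Set X, F.Finite → ∃ u ∈ U, F ⊆ u

/-- `X` satisfies `Split(Ω, Λ)`: every open `ω`-cover is the union of two disjoint subfamilies,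
each of which contains an open large cover. -/
def Split (X : Set ℝ) : Prop :=
  ∀ U : Set (Set X), IsOmega U → ∃ V W : Set (Set X), V ∪ W = U ∧ Disjoint V W ∧
    (∃ V' ⊆ V, IsLarge V') ∧ ∃ W' ⊆ W, IsLarge W'

/-- The additivity number: the least cardinality of a family of sets of reals satisfying
`Split(Ω, Λ)` whose union does not satisfy it. -/
noncomputable def addSplit : Cardinal.{0} :=
  sInf {κ | ∃ F : Set (Set ℝ), (∀ X ∈ F, Split X) ∧ ¬ Split (⋃₀ F) ∧ #F = κ}

/-- `B` is a base of the ultrafilter `𝒰` on `ℕ`: its members belong to `𝒰` and every member of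
`𝒰` contains a member of `B`. -/
def IsBase (𝒰 : Ultrafilter ℕ) (B : Set (Set ℕ)) : Prop :=
  (∀ b ∈ B, b ∈ 𝒰) ∧ ∀ s ∈ 𝒰, ∃ b ∈ B, b ⊆ s

/-- The ultrafilter number `𝔲`: the least cardinality of a base of an ultrafilter on `ℕ` which
is not principal. -/
noncomputable def ultraNumber : Cardinal.{0} :=
  sInf {κ | ∃ (𝒰 : Ultrafilter ℕ) (B : Set (Set ℕ)), (∀ n : ℕ, {n} ∉ 𝒰) ∧ IsBase 𝒰 B ∧ #B = κ}

end Pool.Agent.H44R2.Spl
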