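import Pool.Agent.H44R2.Spl.Defs

set_option autoImplicit false

namespace Pool.Agent.H44R2.Spl

open Set Cardinal Filter Topology

/-! ### ultrafilters -/

lemma finite_not_mem {𝒰 : Ultrafilter ℕ} (h : ∀ n : ℕ, {n} ∉ 𝒰) {s : Set ℕ} (hs : s.Finite) :
    s ∉ 𝒰 := by
  intro hm
  have h2 : (⋃ i ∈ s, {i}) ∈ 𝒰 := by simpa using hm
  rw [Ultrafilter.finite_biUnion_mem_iff hs] at h2
  obtain ⟨i, -, hi⟩ := h2
  exact h i hi

/-- a base of a nonprincipal ultrafilter is uncountable. -/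
lemma base_uncountable {𝒰 : Ultrafilter ℕ} {B : Set (Set ℕ)} (h : ∀ n : ℕ, {n} ∉ 𝒰)
    (hB : IsBase 𝒰 B) : ℵ₀ < #B := by
  by_contra hc
  have hcount : B.Countable := by
    rw [← Cardinal.le_aleph0_iff_set_countable]
    exact not_lt.1 hc
  have hne : B.Nonempty := by
    obtain ⟨b, hb, -⟩ := hB.2 univ Filter.univ_mem
    exact ⟨b, hb⟩
  obtain ⟨b, hb⟩ := hcount.exists_eq_range hne
  have hbm : ∀ n, b n ∈ 𝒰 := fun n => hB.1 _ (hb ▸ mem_range_self n)
  -- decreasing intersections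
  have hcm : ∀ n, (⋂ i ∈ Finset.range (n + 1), b i) ∈ (𝒰 : Filter ℕ) := by
    intro n
    rw [Filter.biInter_finset_mem]
    intro i _
    exact hbm i
  have hinf : ∀ n, (⋂ i ∈ Finset.range (n + 1), b i).Infinite := by
    intro n hf
    exact finite_not_mem h hf (hcm n)
  have hex : ∀ (n m : ℕ), ∃ k, m < k ∧ k ∈ b n := by
    intro n m
    obtain ⟨k, hk, hmk⟩ := (hinf n).exists_gt m
    refine ⟨k, hmk, ?_⟩
    have := mem_iInter₂.1 hk n (by simp)
    exact this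
  choose g hg1 hg2 using hex
  -- a strictly increasing sequence: a (2n), a (2n+1) ∈ b n
  let a : ℕ → ℕ := fun n => Nat.rec (g 0 0) (fun k r => g ((k + 1) / 2) r) n
  have ha : ∀ n, a (n + 1) = g ((n + 1) / 2) (a n) := fun n => rfl
  have hmono : StrictMono a := strictMono_nat_of_lt_succ (fun n => by rw [ha]; exact hg1 _ _)
  have hmem : ∀ n, a n ∈ b (n / 2) := by
    intro n
    cases n with
    | zero => exact hg2 0 0
    | succ k => rw [ha]; exact hg2 _ _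
  let A : Set ℕ := a '' {n | Even n}
  rcases Ultrafilter.mem_or_compl_mem 𝒰 A with hA | hA
  · obtain ⟨c, hc1, hc2⟩ := hB.2 A hA
    rw [hb] at hc1
    obtain ⟨n, rfl⟩ := hc1
    have h1 : a (2 * n + 1) ∈ b n := by
      have := hmem (2 * n + 1)
      rwa [show (2 * n + 1) / 2 = n by omega] at this
    obtain ⟨m, hm, hm2⟩ := hc2 h1
    have h2 : m = 2 * n + 1 := hmono.injective hm2
    have h3 : Even m := hm
    rw [h2] at h3
    have h4 : ¬ Even (2 * n + 1) := by simp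
    exact h4 h3
  · obtain ⟨c, hc1, hc2⟩ := hB.2 Aᶜ hA
    rw [hb] at hc1
    obtain ⟨n, rfl⟩ := hc1
    have h1 : a (2 * n) ∈ b n := by
      have := hmem (2 * n)
      rwa [show (2 * n) / 2 = n by omega] at this
    exact hc2 h1 ⟨2 * n, by simp, rfl⟩

lemma ultra_set_nonempty : {κ | ∃ (𝒰 : Ultrafilter ℕ) (B : Set (Set ℕ)), (∀ n : ℕ, {n} ∉ 𝒰) ∧
    IsBase 𝒰 B ∧ #B = κ}.Nonempty := by
  refine ⟨_, hyperfilter ℕ, {s | s ∈ hyperfilter ℕ}, ?_, ⟨fun b hb => hb, fun s hs => ⟨s, hs, subset_rfl⟩⟩, rfl⟩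
  intro n
  exact Filter.notMem_hyperfilter_of_finite (Set.finite_singleton n)

/-- the ultrafilter number is attained. -/
lemma exists_ultra : ∃ (𝒰 : Ultrafilter ℕ) (B : Set (Set ℕ)), (∀ n : ℕ, {n} ∉ 𝒰) ∧
    IsBase 𝒰 B ∧ #B = ultraNumber :=
  csInf_mem ultra_set_nonempty

lemma aleph0_lt_ultra : ℵ₀ < ultraNumber := by
  obtain ⟨𝒰, B, h1, h2, h3⟩ := exists_ultra
  rw [← h3]
  exact base_uncountable h1 h2

lemma ultra_le {𝒰 : Ultrafilter ℕ} {B : Set (Set ℕ)} (h : ∀ n : ℕ, {n} ∉ 𝒰)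
    (hB : IsBase 𝒰 B) : ultraNumber ≤ #B :=
  csInf_le' ⟨𝒰, B, h, hB, rfl⟩

/-! ### countable subcovers -/

lemma countable_omega {Y : Type} [TopologicalSpace Y] [SecondCountableTopology Y]
    {U : Set (Set Y)} (hU : ∀ u ∈ U, IsOpen u) (hO : ∀ F : Set Y, F.Finite → ∃ u ∈ U, F ⊆ u) :
    ∃ U' ⊆ U, U'.Countable ∧ ∀ F : Set Y, F.Finite → ∃ u ∈ U', F ⊆ u := by
  have key : ∀ k : ℕ, ∃ T : Set (Set Y), T ⊆ U ∧ T.Countable ∧
      ∀ f : Fin k → Y, ∃ u ∈ T, ∀ i, f i ∈ u := by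
    intro k
    have hL : IsLindelof (univ : Set (Fin k → Y)) := isLindelof_univ
    obtain ⟨T, hT⟩ := hL.elim_countable_subcover (fun u : U => {f : Fin k → Y | ∀ i, f i ∈ (u : Set Y)})
      (by
        intro u
        have : {f : Fin k → Y | ∀ i, f i ∈ (u : Set Y)} = Set.pi univ (fun _ => (u : Set Y)) := by
          ext f; simp [Set.mem_pi]
        rw [this]
        exact isOpen_set_pi Set.finite_univ (fun i _ => hU u u.2))
      (by
        intro f _
        obtain ⟨u, hu, hfu⟩ := hO (range f) (Set.finite_range f)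
        exact mem_iUnion.2 ⟨⟨u, hu⟩, fun i => hfu (mem_range_self i)⟩)
    refine ⟨Subtype.val '' T, ?_, hT.1.image _, ?_⟩
    · rintro _ ⟨u, -, rfl⟩
      exact u.2
    · intro f
      obtain ⟨u, hu, hfu⟩ := mem_iUnion₂.1 (hT.2 (mem_univ f))
      exact ⟨u, ⟨u, hu, rfl⟩, hfu⟩
  choose T hT1 hT2 hT3 using key
  refine ⟨⋃ k, T k, iUnion_subset hT1, countable_iUnion hT2, ?_⟩
  intro F hF
  have : Finite F := hF.to_subtype
  obtain ⟨k, ⟨e⟩⟩ := Finite.exists_equiv_fin F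
  obtain ⟨u, hu, hfu⟩ := hT3 k (fun i => (e.symm i : Y))
  refine ⟨u, mem_iUnion.2 ⟨k, hu⟩, ?_⟩
  intro x hx
  have := hfu (e ⟨x, hx⟩)
  simpa using this

/-- every finite set is contained in infinitely many members. -/
lemma omega_infinite {Y : Type} {U : Set (Set Y)} (hp : Set.univ ∉ U)
    (hO : ∀ F : Set Y, F.Finite → ∃ u ∈ U, F ⊆ u) (F : Set Y) (hF : F.Finite) :
    {u | u ∈ U ∧ F ⊆ u}.Infinite := by
  intro hfin
  have hne : ∀ u : U, ∃ x, x ∉ (u : Set Y) := by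
    intro u
    by_contra hc
    have hc' : ∀ x, x ∈ (u : Set Y) := fun x => by
      by_contra h
      exact hc ⟨x, h⟩
    exact hp (by rw [← Set.eq_univ_of_forall hc']; exact u.2)
  choose x0 hx0 using hne
  obtain ⟨u0, hu0, -⟩ := hO F hF
  let x : Set Y → Y := fun u => by
    classical
    exact if h : u ∈ U then x0 ⟨u, h⟩ else x0 ⟨u0, hu0⟩
  have hx : ∀ u ∈ U, x u ∉ u := by
    intro u hu
    have : x u = x0 ⟨u, hu⟩ := by simp [x, hu]
    rw [this]
    exact hx0 ⟨u, hu⟩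
  obtain ⟨u, hu, hFu⟩ := hO (F ∪ x '' {u | u ∈ U ∧ F ⊆ u}) (hF.union (hfin.image _))
  have h1 : u ∈ {u | u ∈ U ∧ F ⊆ u} := ⟨hu, subset_union_left.trans hFu⟩
  exact hx u hu (hFu (Or.inr ⟨u, h1, rfl⟩))

/-- If the sets `y x ⊆ ℕ`, `x : Y`, have infinite finite intersections and `#Y < 𝔲`, then some
`A ⊆ ℕ` splits all of them. -/
lemma exists_split {Y : Type} (hY : #Y < ultraNumber) (y : Y → Set ℕ)
    (hy : ∀ F : Finset Y, (⋂ x ∈ F, y x).Infinite) :
    ∃ A : Set ℕ, ∀ x, (y x ∩ A).Infinite ∧ (y x \ A).Infinite := by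
  classical
  by_contra hc
  have hc' : ∀ A : Set ℕ, ∃ x, (y x ∩ A).Finite ∨ (y x \ A).Finite := by
    intro A
    by_contra h
    refine hc ⟨A, fun x => ⟨fun h1 => h ⟨x, Or.inl h1⟩, fun h1 => h ⟨x, Or.inr h1⟩⟩⟩
  -- the filter generated
  let G : Filter ℕ :=
    { sets := {s | ∃ F : Finset Y, ((⋂ x ∈ F, y x) \ s).Finite}
      univ_sets := ⟨∅, by simp⟩
      sets_of_superset := by
        rintro s t ⟨F, hF⟩ hst
        exact ⟨F, hF.subset (Set.sdiff_subset_sdiff_right hst)⟩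
      inter_sets := by
        rintro s t ⟨F, hF⟩ ⟨F', hF'⟩
        refine ⟨F ∪ F', (hF.union hF').subset ?_⟩
        rintro n ⟨hn1, hn2⟩
        by_cases hs : n ∈ s
        · right
          exact ⟨mem_iInter₂.2 (fun x hx => mem_iInter₂.1 hn1 x (Finset.mem_union_right _ hx)),
            fun ht => hn2 ⟨hs, ht⟩⟩
        · left
          exact ⟨mem_iInter₂.2 (fun x hx => mem_iInter₂.1 hn1 x (Finset.mem_union_left _ hx)), hs⟩ }
  have hG : ∀ s, s ∈ G ↔ ∃ F : Finset Y, ((⋂ x ∈ F, y x) \ s).Finite := fun s => Iff.rfl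
  have hult : ∀ s, sᶜ ∉ G ↔ s ∈ G := by
    intro s
    constructor
    · intro h
      obtain ⟨x, hx⟩ := hc' s
      rcases hx with hx | hx
      · exfalso
        apply h
        rw [hG]
        refine ⟨{x}, ?_⟩
        simpa [Set.sdiff_eq] using hx
      · rw [hG]
        exact ⟨{x}, by simpa using hx⟩
    · intro h h'
      rw [hG] at h h'
      obtain ⟨F, hF⟩ := h
      obtain ⟨F', hF'⟩ := h'
      apply hy (F ∪ F')
      refine (hF.union hF').subset ?_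
      intro n hn
      by_cases hs : n ∈ s
      · right
        exact ⟨mem_iInter₂.2 (fun x hx => mem_iInter₂.1 hn x (Finset.mem_union_right _ hx)),
          fun h => h hs⟩
      · left
        exact ⟨mem_iInter₂.2 (fun x hx => mem_iInter₂.1 hn x (Finset.mem_union_left _ hx)), hs⟩
  let 𝒰 : Ultrafilter ℕ := Ultrafilter.ofComplNotMemIff G hult
  have h𝒰 : ∀ s, s ∈ 𝒰 ↔ ∃ F : Finset Y, ((⋂ x ∈ F, y x) \ s).Finite := fun s => Iff.rfl
  have hnp : ∀ n : ℕ, ({n} : Set ℕ) ∉ 𝒰 := by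
    intro n hn
    rw [h𝒰] at hn
    obtain ⟨F, hF⟩ := hn
    apply hy F
    refine (hF.union (Set.finite_singleton n)).subset ?_
    intro m hm
    by_cases hmn : m = n
    · right; exact hmn
    · left; exact ⟨hm, hmn⟩
  let B : Set (Set ℕ) := Set.range (fun p : Finset Y × Finset ℕ => (⋂ x ∈ p.1, y x) \ (p.2 : Set ℕ))
  have hB : IsBase 𝒰 B := by
    constructor
    · rintro _ ⟨p, rfl⟩
      rw [h𝒰]
      refine ⟨p.1, (Finset.finite_toSet p.2).subset ?_⟩
      rintro m ⟨hm1, hm2⟩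
      by_contra h
      exact hm2 ⟨hm1, h⟩
    · intro s hs
      rw [h𝒰] at hs
      obtain ⟨F, hF⟩ := hs
      refine ⟨_, ⟨(F, hF.toFinset), rfl⟩, ?_⟩
      rintro m ⟨hm1, hm2⟩
      by_contra h
      apply hm2
      simp only [Set.Finite.coe_toFinset]
      exact ⟨hm1, h⟩
  have h1 := ultra_le hnp hB
  have h2 : #B ≤ max #Y ℵ₀ := by
    refine (Cardinal.mk_range_le).trans ?_
    rw [Cardinal.mk_prod, Cardinal.lift_id, Cardinal.lift_id]
    have h3 : #(Finset Y) ≤ max #Y ℵ₀ := by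
      rcases finite_or_infinite Y with hf | hi
      · exact (Cardinal.mk_le_aleph0).trans (le_max_right _ _)
      · rw [Cardinal.mk_finset_of_infinite]
        exact le_max_left _ _
    have h4 : #(Finset ℕ) ≤ max #Y ℵ₀ := by
      exact (Cardinal.mk_le_aleph0).trans (le_max_right _ _)
    calc #(Finset Y) * #(Finset ℕ) ≤ max #Y ℵ₀ * max #Y ℵ₀ := mul_le_mul' h3 h4
      _ = max #Y ℵ₀ := Cardinal.mul_eq_self (le_max_right _ _)
  have h5 : max #Y ℵ₀ < ultraNumber := max_lt hY aleph0_lt_ultra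
  exact absurd (h1.trans h2) (not_le.2 h5)

/-- every set of reals of cardinality less than `𝔲` satisfies `Split(Ω, Λ)`. -/
theorem split_of_lt {X : Set ℝ} (hX : #X < ultraNumber) : Split X := by
  classical
  rintro U ⟨hU, hO⟩
  obtain ⟨U', hU', hcount, hO'⟩ := countable_omega hU.isOpen hO
  have hp' : Set.univ ∉ U' := fun h => hU.proper (hU' h)
  have hinf : U'.Infinite := by
    have := omega_infinite hp' hO' ∅ Set.finite_empty
    exact this.mono (fun u hu => hu.1)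
  have : Infinite U' := hinf.to_subtype
  have : Countable U' := hcount.to_subtype
  obtain ⟨e⟩ : Nonempty (ℕ ≃ U') := by
    have := (nonempty_denumerable_iff (α := U')).2 ⟨inferInstance, inferInstance⟩
    obtain ⟨hd⟩ := this
    exact ⟨(Denumerable.eqv U').symm⟩
  let E : ℕ → Set X := fun n => (e n : Set X)
  have hE : Function.Injective E := Subtype.val_injective.comp e.injective
  have hEU : ∀ n, E n ∈ U := fun n => hU' (e n).2
  let y : X → Set ℕ := fun x => {n | x ∈ E n}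
  have hy : ∀ F : Finset X, (⋂ x ∈ F, y x).Infinite := by
    intro F hfin
    have h1 := omega_infinite hp' hO' (F : Set X) F.finite_toSet
    apply h1
    refine (hfin.image E).subset ?_
    rintro u ⟨hu1, hu2⟩
    refine ⟨e.symm ⟨u, hu1⟩, ?_, ?_⟩
    · simp only [Set.mem_iInter]
      intro x hx
      change x ∈ E _
      simp only [E, Equiv.apply_symm_apply]
      exact hu2 hx
    · simp [E]
  obtain ⟨A, hA⟩ := exists_split hX y hy
  have large : ∀ S : Set ℕ, (∀ x, (y x ∩ S).Infinite) → IsLarge (E '' S) := by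
    intro S hS
    have hxinf : ∀ x : X, {u | u ∈ E '' S ∧ x ∈ u}.Infinite := by
      intro x
      have h1 : E '' (y x ∩ S) ⊆ {u | u ∈ E '' S ∧ x ∈ u} := by
        rintro _ ⟨n, ⟨hn1, hn2⟩, rfl⟩
        exact ⟨⟨n, hn2, rfl⟩, hn1⟩
      exact ((hS x).image hE.injOn).mono h1
    refine ⟨⟨?_, ?_, ?_⟩, hxinf⟩
    · rintro _ ⟨n, -, rfl⟩
      exact hU.isOpen _ (hEU n)
    · rw [Set.eq_univ_iff_forall]
      intro x
      obtain ⟨u, hu1, hu2⟩ := (hxinf x).nonempty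
      exact ⟨u, hu1, hu2⟩
    · rintro ⟨n, -, hn⟩
      exact hU.proper (hn ▸ hEU n)
  refine ⟨E '' A ∪ (U \ U'), E '' Aᶜ, ?_, ?_, ⟨E '' A, subset_union_left, large A (fun x => (hA x).1)⟩,
    ⟨E '' Aᶜ, subset_rfl, large Aᶜ (fun x => by rw [← Set.sdiff_eq]; exact (hA x).2)⟩⟩
  · apply Set.Subset.antisymm
    · rintro u ((⟨n, -, rfl⟩ | hu) | ⟨n, -, rfl⟩)
      · exact hEU n
      · exact hu.1
      · exact hEU n
    · intro u hu
      by_cases h : u ∈ U'
      · have h2 : E (e.symm ⟨u, h⟩) = u := by simp [E]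
        by_cases h3 : e.symm ⟨u, h⟩ ∈ A
        · left; left; exact ⟨_, h3, h2⟩
        · right; exact ⟨_, h3, h2⟩
      · left; right; exact ⟨hu, h⟩
  · rw [Set.disjoint_left]
    rintro u (⟨n, hn, rfl⟩ | hu) ⟨m, hm, hmn⟩
    · have := hE hmn
      rw [this] at hm
      exact hm hn
    · apply hu.2
      rw [← hmn]
      exact (e m).2

/-- a topological embedding of the Cantor space in the real line. -/
lemma exists_embedding : ∃ g : (ℕ → Bool) → ℝ, IsEmbedding g := by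
  obtain ⟨g, -, hg1, hg2⟩ := Perfect.exists_nat_bool_injection (C := (Set.univ : Set ℝ))
    (PerfectSpace.univ_perfect ℝ) Set.univ_nonempty
  exact ⟨g, (hg1.isClosedEmbedding hg2).isEmbedding⟩

/-- a base of a nonprincipal ultrafilter, as a set of reals, does not satisfy `Split(Ω, Λ)`. -/
theorem not_split_base {𝒰 : Ultrafilter ℕ} {B : Set (Set ℕ)} (h : ∀ n : ℕ, {n} ∉ 𝒰)
    (hB : IsBase 𝒰 B) : ∃ X : Set ℝ, #X = #B ∧ ¬ Split X := by
  classical
  obtain ⟨g, hg⟩ := exists_embedding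
  let χ : Set ℕ → ℕ → Bool := fun b n => decide (n ∈ b)
  have hχ : Function.Injective χ := by
    intro a b hab
    ext n
    have := congrFun hab n
    simpa [χ] using this
  let k : Set ℕ → ℝ := fun b => g (χ b)
  have hk : Function.Injective k := hg.injective.comp hχ
  refine ⟨k '' B, Cardinal.mk_image_eq hk, ?_⟩
  -- the coordinates of a point
  have hrange : ∀ x : (k '' B : Set ℝ), (x : ℝ) ∈ Set.range g := by
    rintro ⟨_, b, -, rfl⟩
    exact ⟨χ b, rfl⟩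
  let c : (k '' B : Set ℝ) → (ℕ → Bool) := fun x => hg.toHomeomorph.symm ⟨x, hrange x⟩
  have hc : Continuous c :=
    hg.toHomeomorph.symm.continuous.comp (Continuous.subtype_mk continuous_subtype_val _)
  have hck : ∀ b (hb : b ∈ B), c ⟨k b, b, hb, rfl⟩ = χ b := by
    intro b hb
    simp only [c]
    rw [Homeomorph.symm_apply_eq]
    rfl
  let O : ℕ → Set (k '' B : Set ℝ) := fun n => {x | c x n = true}
  have hmemO : ∀ b (hb : b ∈ B) n, (⟨k b, b, hb, rfl⟩ : (k '' B : Set ℝ)) ∈ O n ↔ n ∈ b := by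
    intro b hb n
    simp only [O, Set.mem_ofPred_eq, hck b hb]
    simp [χ]
  have hne : ∀ n, ∃ b ∈ B, n ∉ b := by
    intro n
    have h1 : ({n}ᶜ : Set ℕ) ∈ 𝒰 := by
      rw [Ultrafilter.compl_mem_iff_notMem]
      exact h n
    obtain ⟨b, hb, hb2⟩ := hB.2 _ h1
    exact ⟨b, hb, fun hn => hb2 hn rfl⟩
  have hOm : IsOmega (Set.range O) := by
    have hfin : ∀ F : Set (k '' B : Set ℝ), F.Finite → ∃ u ∈ Set.range O, F ⊆ u := by
      intro F hF
      have h1 : ∀ x : (k '' B : Set ℝ), {n | c x n = true} ∈ 𝒰 := by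
        rintro ⟨_, b, hb, rfl⟩
        rw [hck b hb]
        have : {n | χ b n = true} = b := by ext n; simp [χ]
        rw [this]
        exact hB.1 b hb
      have h2 : (⋂ x ∈ F, {n | c x n = true}) ∈ (𝒰 : Filter ℕ) := by
        rw [Filter.biInter_mem hF]
        intro x _
        exact h1 x
      obtain ⟨n, hn⟩ := Ultrafilter.nonempty_of_mem h2
      refine ⟨O n, ⟨n, rfl⟩, ?_⟩
      intro x hx
      exact (mem_iInter₂.1 hn x hx)
    refine ⟨⟨?_, ?_, ?_⟩, hfin⟩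
    · rintro _ ⟨n, rfl⟩
      have : O n = (fun x => c x n) ⁻¹' {true} := rfl
      rw [this]
      exact (isOpen_discrete _).preimage ((continuous_apply n).comp hc)
    · rw [Set.eq_univ_iff_forall]
      intro x
      obtain ⟨u, hu1, hu2⟩ := hfin {x} (Set.finite_singleton x)
      exact ⟨u, hu1, hu2 rfl⟩
    · rintro ⟨n, hn⟩
      obtain ⟨b, hb, hnb⟩ := hne n
      have h1 : (⟨k b, b, hb, rfl⟩ : (k '' B : Set ℝ)) ∈ O n := by
        rw [hn]; exact Set.mem_univ _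
      exact hnb ((hmemO b hb n).1 h1)
  intro hS
  obtain ⟨V, W, hVW, hdisj, ⟨V', hV', hVl⟩, ⟨W', hW', hWl⟩⟩ := hS _ hOm
  rcases Ultrafilter.mem_or_compl_mem 𝒰 {n | O n ∈ V} with hA | hA
  · obtain ⟨b, hb, hb2⟩ := hB.2 _ hA
    obtain ⟨w, hw1, hw2⟩ := (hWl.2 ⟨k b, b, hb, rfl⟩).nonempty
    have hwW : w ∈ W := hW' hw1
    have hwU : w ∈ Set.range O := hVW ▸ Or.inr hwW
    obtain ⟨n, rfl⟩ := hwU
    have h3 : O n ∈ V := hb2 ((hmemO b hb n).1 hw2)
    exact Set.disjoint_left.1 hdisj h3 hwW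
  · obtain ⟨b, hb, hb2⟩ := hB.2 _ hA
    obtain ⟨v, hv1, hv2⟩ := (hVl.2 ⟨k b, b, hb, rfl⟩).nonempty
    have hvV : v ∈ V := hV' hv1
    have hvU : v ∈ Set.range O := hVW ▸ Or.inl hvV
    obtain ⟨n, rfl⟩ := hvU
    exact hb2 ((hmemO b hb n).1 hv2) hvV

/-- a set of cardinality `κ` is the union of `cf κ` sets of smaller cardinality. -/
lemma exists_family {α : Type} {κ : Cardinal.{0}} (hκ : ℵ₀ ≤ κ) (X : Set α) (hX : #X = κ) :
    ∃ F : Set (Set α), ⋃₀ F = X ∧ (∀ Y ∈ F, #Y < κ) ∧ #F ≤ κ.ord.cof := by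
  classical
  have h1 : #X = #κ.ord.ToType := by rw [hX, Cardinal.mk_ord_toType]
  obtain ⟨e⟩ := Cardinal.eq.1 h1
  obtain ⟨S, hS, hSc⟩ := Order.exists_cof_eq κ.ord.ToType
  rw [Ordinal.cof_toType] at hSc
  let P : κ.ord.ToType → Set α := fun s => {a | ∃ h : a ∈ X, e ⟨a, h⟩ ≤ s}
  refine ⟨P '' S, ?_, ?_, ?_⟩
  · apply Set.Subset.antisymm
    · rintro a ⟨_, ⟨s, -, rfl⟩, h, -⟩
      exact h
    · intro a ha
      obtain ⟨s, hs, hs2⟩ := hS (e ⟨a, ha⟩)
      exact ⟨P s, ⟨s, hs, rfl⟩, ha, hs2⟩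
  · rintro _ ⟨s, -, rfl⟩
    have h2 : #(P s) ≤ #(Set.Iic s) := by
      refine Cardinal.mk_le_of_injective (f := fun a : P s => (⟨e ⟨a, a.2.choose⟩, a.2.choose_spec⟩ : Set.Iic s)) ?_
      intro a b hab
      have h3 := congrArg Subtype.val hab
      have h4 := e.injective h3
      have h5 := congrArg Subtype.val h4
      exact Subtype.ext h5
    refine h2.trans_lt ?_
    have h3 : Set.Iic s = insert s (Set.Iio s) := by
      rw [Set.Iio_insert]
    rw [h3]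
    refine (Cardinal.mk_insert_le).trans_lt ?_
    exact Cardinal.add_lt_of_lt hκ (Cardinal.mk_Iio_toType_ord_lt s) (Cardinal.one_lt_aleph0.trans_le hκ)
  · rw [← hSc]
    exact Cardinal.mk_image_le

/-- a family of `cf 𝔲` sets with `Split(Ω, Λ)` whose union does not have it. -/
theorem exists_family_split : ∃ F : Set (Set ℝ), (∀ X ∈ F, Split X) ∧ ¬ Split (⋃₀ F) ∧
    #F ≤ ultraNumber.ord.cof := by
  obtain ⟨𝒰, B, h1, h2, h3⟩ := exists_ultra
  obtain ⟨X, hX, hXs⟩ := not_split_base h1 h2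
  obtain ⟨F, hF1, hF2, hF3⟩ := exists_family aleph0_lt_ultra.le X (hX.trans h3)
  exact ⟨F, fun Y hY => split_of_lt (hF2 Y hY), by rwa [hF1], hF3⟩

theorem addSplit_le : addSplit ≤ ultraNumber.ord.cof := by
  obtain ⟨F, h1, h2, h3⟩ := exists_family_split
  have h4 : addSplit ≤ #F := csInf_le' (show #F ∈ {κ : Cardinal.{0} | ∃ F : Set (Set ℝ),
    (∀ X ∈ F, Split X) ∧ ¬ Split (⋃₀ F) ∧ #F = κ} from ⟨F, h1, h2, rfl⟩)
  exact h4.trans h3

/-- the least cardinality of a set of reals without `Split(Ω, Λ)` is `𝔲`. -/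
theorem non_split : sInf {κ | ∃ X : Set ℝ, ¬ Split X ∧ #X = κ} = ultraNumber := by
  obtain ⟨𝒰, B, h1, h2, h3⟩ := exists_ultra
  obtain ⟨X, hX, hXs⟩ := not_split_base h1 h2
  apply le_antisymm
  · exact csInf_le' (show ultraNumber ∈ {κ : Cardinal.{0} | ∃ X : Set ℝ, ¬ Split X ∧ #X = κ} from
      ⟨X, hXs, hX.trans h3⟩)
  · refine le_csInf (s := {κ : Cardinal.{0} | ∃ X : Set ℝ, ¬ Split X ∧ #X = κ})
      (show Set.Nonempty {κ : Cardinal.{0} | ∃ X : Set ℝ, ¬ Split X ∧ #X = κ} from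
        ⟨#X, X, hXs, rfl⟩) ?_
    rintro κ ⟨Y, hY, rfl⟩
    by_contra hc
    exact hY (split_of_lt (not_le.1 hc))

end Pool.Agent.H44R2.Spl
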